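import Mathlib
import Pool.Agent.H294R2.Ramsey.Tower

set_option autoImplicit false

/-!
# Ramsey schemes exist for infinitely many numbers of colours

For every `k` the field with `2 ^ (4 ^ k)` elements carries a Ramsey scheme in
`m_k = (2 ^ (4 ^ 0) + 1) (2 ^ (4 ^ 1) + 1) ⋯ (2 ^ (4 ^ (k - 1)) + 1)` colours
(`m_1 = 3`, `m_2 = 51`, `m_3 = 3342387`, …). The colour classes are the cosets of the subgroup
`H_k` defined by `H_0 = 1` and `H_{k+1} = {v : N(v) ∈ H_k}`, where `N` is the norm from the field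
with `2 ^ (4 ^ (k + 1))` elements to its subfield of index two.
-/

open Polynomial

namespace Pool.Agent.Results.MP_3a87f6_co.InfinitelyManyColors

open Pool.Agent.H294R2.Ramsey

/-- the identity relation on `U` -/
def idRel (U : Type) : Set (U × U) := {p | p.1 = p.2}

/-- the converse of a relation -/
def converse {U : Type} (R : Set (U × U)) : Set (U × U) := {p | (p.2, p.1) ∈ R}

/-- relational composition -/
def comp {U : Type} (R S : Set (U × U)) : Set (U × U) :=
  {p | ∃ y, (p.1, y) ∈ R ∧ (y, p.2) ∈ S}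

/-- A Ramsey scheme in `m` colours on `U`: the relations `Id, R 0, …, R (m - 1)` are nonempty,
pairwise disjoint and cover `U × U`, each `R i` is symmetric, `R i ∘ R i` is the complement of
`R i`, and `R i ∘ R j` is the complement of `Id` for `i ≠ j`. -/
structure IsRamseyScheme {U : Type} (m : ℕ) (R : Fin m → Set (U × U)) : Prop where
  nonempty : ∀ i, (R i).Nonempty
  disjoint_id : ∀ i, Disjoint (R i) (idRel U)
  disjoint : ∀ i j, i ≠ j → Disjoint (R i) (R j)
  cover : idRel U ∪ ⋃ i, R i = Set.univ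
  symm : ∀ i, converse (R i) = R i
  comp_self : ∀ i, comp (R i) (R i) = (R i)ᶜ
  comp_ne : ∀ i j, i ≠ j → comp (R i) (R j) = (idRel U)ᶜ

/-- the ambient field -/
abbrev L : Type := AlgebraicClosure (ZMod 2)

instance : CharP L 2 := inferInstance

/-- the field with `2 ^ (4 ^ k)` elements -/
abbrev U (k : ℕ) : Type := {x : L // x ^ (2 ^ (4 ^ k)) = x}

theorem finite_U (k : ℕ) : Finite (U k) := by
  obtain ⟨Z, -, hZ⟩ := exists_fixed_finset (L := L) (4 ^ k) (by positivity)
  have : {x : L | x ^ (2 ^ (4 ^ k)) = x} = (Z : Set L) := by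
    ext x
    simp [hZ]
  have h2 : ({x : L | x ^ (2 ^ (4 ^ k)) = x}).Finite := by
    rw [this]; exact Z.finite_toSet
  exact h2.to_subtype

theorem MM_odd (k : ℕ) : Odd (MM k) := by
  induction k with
  | zero => simp [MM]
  | succ k ih =>
    simp only [MM]
    refine Odd.mul (Even.add_one ?_) ih
    exact (Nat.even_pow.mpr ⟨even_two, by positivity⟩)

theorem card_roots (k : ℕ) : ∃ Z : Finset L, Z.card = MM k ∧ ∀ z, z ∈ Z ↔ z ^ (MM k) = 1 := by
  classical
  have hpos := MM_pos k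
  set P : L[X] := X ^ (MM k) - 1 with hP
  have hdeg : P.natDegree = MM k := by
    have := Polynomial.natDegree_X_pow_sub_C (n := MM k) (r := (1 : L))
    simpa [hP] using this
  have hP0 : P ≠ 0 := by
    intro h
    rw [h] at hdeg
    simp at hdeg
    omega
  have hne : ((MM k : ℕ) : L) ≠ 0 := by
    intro h
    rw [CharP.cast_eq_zero_iff L 2] at h
    have := MM_odd k
    rw [← Nat.not_even_iff_odd] at this
    exact this (even_iff_two_dvd.mpr h)
  have hsep : P.Separable := (X_pow_sub_one_separable_iff).mpr hne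
  refine ⟨P.roots.toFinset, ?_, ?_⟩
  · rw [Multiset.toFinset_card_of_nodup (nodup_roots hsep), ← hdeg]
    exact (IsAlgClosed.splits P).natDegree_eq_card_roots.symm
  · intro z
    rw [Multiset.mem_toFinset, mem_roots hP0]
    simp [hP, IsRoot, sub_eq_zero]

theorem NN_pos (k : ℕ) : 0 < NN k := by
  induction k with
  | zero => simp [NN]
  | succ k ih => simp only [NN]; positivity

theorem NN_dvd (k : ℕ) : NN k ∣ 2 ^ (4 ^ k) - 1 := ⟨MM k, (NN_MM k).symm⟩

theorem pow_sub_one (k : ℕ) (x : L) (hx0 : x ≠ 0) (hx : x ^ (2 ^ (4 ^ k)) = x) :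
    (x ^ (NN k)) ^ (MM k) = 1 := by
  rw [← pow_mul, NN_MM]
  have : x * x ^ (2 ^ (4 ^ k) - 1) = x * 1 := by
    rw [← pow_succ', Nat.sub_add_cancel Nat.one_le_two_pow, hx, mul_one]
  exact mul_left_cancel₀ hx0 this

theorem exists_root (k : ℕ) (ζ : L) (hζ : ζ ^ (MM k) = 1) :
    ∃ c : L, c ≠ 0 ∧ c ^ (NN k) = ζ ∧ c ^ (2 ^ (4 ^ k)) = c := by
  have hζ0 : ζ ≠ 0 := by
    rintro rfl
    rw [zero_pow (MM_pos k).ne'] at hζ
    exact zero_ne_one hζ
  obtain ⟨c, hc⟩ := IsAlgClosed.exists_pow_nat_eq ζ (NN_pos k)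
  have hc0 : c ≠ 0 := by
    rintro rfl
    rw [zero_pow (NN_pos k).ne'] at hc
    exact hζ0 hc.symm
  refine ⟨c, hc0, hc, ?_⟩
  have h1 : c ^ (2 ^ (4 ^ k) - 1) = 1 := by rw [← NN_MM, pow_mul, hc, hζ]
  rw [← Nat.sub_add_cancel (Nat.one_le_two_pow (n := 4 ^ k)), pow_succ, h1, one_mul]

theorem cover_aux (k : ℕ) (z ζ ζ' : L) (hz0 : z ≠ 0) (hz : z ^ (2 ^ (4 ^ k)) = z)
    (hζ : ζ ^ (MM k) = 1) (hζ' : ζ' ^ (MM k) = 1) (h : ¬ (ζ = z ^ (NN k) ∧ ζ' = z ^ (NN k))) :
    ∃ x : L, x ^ (2 ^ (4 ^ k)) = x ∧ x ^ (NN k) = ζ ∧ (x + z) ^ (NN k) = ζ' := by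
  obtain ⟨c, hc0, hc, hcf⟩ := exists_root k ζ hζ
  obtain ⟨d, hd0, hd, hdf⟩ := exists_root k ζ' hζ'
  have hzN : z ^ (NN k) ≠ 0 := pow_ne_zero _ hz0
  obtain ⟨x, y, hx, hy, hxy⟩ := (good_tower (L := L) k).2 (c / z) (d / z)
    (div_ne_zero hc0 hz0) (div_ne_zero hd0 hz0) (fix_div hcf hz) (fix_div hdf hz) (by
      rintro ⟨h1, h2⟩
      apply h
      rw [div_pow, div_eq_one_iff_eq hzN] at h1 h2
      exact ⟨by rw [← hc, h1], by rw [← hd, h2]⟩)
  have hxf : x ^ (2 ^ (4 ^ k)) = x :=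
    (fix_of_pow_eq (NN_dvd k) (div_ne_zero hc0 hz0) (fix_div hcf hz) hx).1
  refine ⟨x * z, fix_mul hxf hz, ?_, ?_⟩
  · rw [mul_pow, hx, div_pow, div_mul_cancel₀ _ hzN, hc]
  · have h1 : x * z + z = y * z := by
      have h2 : x + 1 = y := by
        rw [← hxy]
        calc x + (x + y) = (x + x) + y := by ring
          _ = y := by rw [CharTwo.add_self_eq_zero, zero_add]
      rw [← h2]; ring
    rw [h1, mul_pow, hy, div_pow, div_mul_cancel₀ _ hzN, hd]

theorem scheme (k : ℕ) : ∃ R : Fin (MM k) → Set (U k × U k), IsRamseyScheme (MM k) R := by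
  classical
  obtain ⟨Z, hZ, hZ'⟩ := card_roots k
  let e : Fin (MM k) ≃ Z := (Finset.equivFinOfCardEq hZ).symm
  have hζ : ∀ i, ((e i : Z) : L) ^ (MM k) = 1 := fun i => (hZ' _).mp (e i).2
  have hζ0 : ∀ i, ((e i : Z) : L) ≠ 0 := by
    intro i h
    have := hζ i
    rw [h, zero_pow (MM_pos k).ne'] at this
    exact zero_ne_one this
  have hinj : ∀ i j, ((e i : Z) : L) = ((e j : Z) : L) → i = j := by
    intro i j h
    exact e.injective (Subtype.ext h)
  have hN := NN_pos k
  refine ⟨fun i => {p | ((p.1 : L) + (p.2 : L)) ^ (NN k) = ((e i : Z) : L)}, ?_⟩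
  have fixadd : ∀ u v : U k, ((u : L) + (v : L)) ^ (2 ^ (4 ^ k)) = (u : L) + (v : L) :=
    fun u v => fix_add u.2 v.2
  have ne_add : ∀ u v : U k, u ≠ v → (u : L) + (v : L) ≠ 0 := by
    intro u v huv h
    exact huv (Subtype.ext (CharTwo.add_eq_zero.mp h))
  refine ⟨?_, ?_, ?_, ?_, ?_, ?_, ?_⟩
  · intro i
    obtain ⟨c, -, hc, hcf⟩ := exists_root k _ (hζ i)
    refine ⟨(⟨c, hcf⟩, ⟨0, zero_pow (by positivity)⟩), ?_⟩
    simp only [Set.mem_setOf_eq, add_zero]
    exact hc
  · intro i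
    rw [Set.disjoint_left]
    rintro ⟨u, v⟩ h1 h2
    simp only [Set.mem_setOf_eq] at h1
    have h3 : u = v := h2
    rw [h3, CharTwo.add_self_eq_zero, zero_pow hN.ne'] at h1
    exact hζ0 i h1.symm
  · intro i j hij
    rw [Set.disjoint_left]
    rintro ⟨u, v⟩ h1 h2
    simp only [Set.mem_setOf_eq] at h1 h2
    exact hij (hinj i j (h1.symm.trans h2))
  · rw [Set.eq_univ_iff_forall]
    rintro ⟨u, v⟩
    by_cases huv : u = v
    · left; exact huv
    · right
      rw [Set.mem_iUnion]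
      have h1 := pow_sub_one k _ (ne_add u v huv) (fixadd u v)
      refine ⟨e.symm ⟨_, (hZ' _).mpr h1⟩, ?_⟩
      simp
  · intro i
    ext ⟨u, v⟩
    simp only [converse, Set.mem_setOf_eq]
    rw [add_comm]
  · intro i
    ext ⟨u, w⟩
    simp only [comp, Set.mem_setOf_eq, Set.mem_compl_iff]
    constructor
    · rintro ⟨v, h1, h2⟩ h3
      obtain ⟨c, hc0, hc, -⟩ := exists_root k _ (hζ i)
      have hcN : c ^ (NN k) ≠ 0 := pow_ne_zero _ hc0
      refine (good_tower (L := L) k).1 (((u : L) + v) / c) (((v : L) + w) / c) ?_ ?_ ?_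
      · rw [div_pow, h1, ← hc, div_self hcN]
      · rw [div_pow, h2, ← hc, div_self hcN]
      · rw [← add_div]
        have h4 : ((u : L) + v + ((v : L) + w)) = (u : L) + w := by
          calc ((u : L) + v + ((v : L) + w)) = ((v : L) + v) + ((u : L) + w) := by ring
            _ = _ := by rw [CharTwo.add_self_eq_zero, zero_add]
        rw [h4, div_pow, h3, ← hc, div_self hcN]
    · intro h
      by_cases huw : u = w
      · obtain ⟨c, hc0, hc, hcf⟩ := exists_root k _ (hζ i)
        refine ⟨⟨(u : L) + c, fix_add u.2 hcf⟩, ?_, ?_⟩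
        · rw [← add_assoc, CharTwo.add_self_eq_zero, zero_add, hc]
        · rw [← huw]
          have : (u : L) + c + u = c := by
            calc (u : L) + c + u = ((u : L) + u) + c := by ring
              _ = c := by rw [CharTwo.add_self_eq_zero, zero_add]
          rw [this, hc]
      · obtain ⟨x, hxf, hx, hxz⟩ := cover_aux k ((u : L) + w) _ _ (ne_add u w huw) (fixadd u w)
          (hζ i) (hζ i) (fun h1 => h h1.1.symm)
        refine ⟨⟨(u : L) + x, fix_add u.2 hxf⟩, ?_, ?_⟩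
        · rw [← add_assoc, CharTwo.add_self_eq_zero, zero_add, hx]
        · have : (u : L) + x + w = x + ((u : L) + w) := by ring
          rw [this, hxz]
  · intro i j hij
    ext ⟨u, w⟩
    simp only [comp, idRel, Set.mem_setOf_eq, Set.mem_compl_iff]
    constructor
    · rintro ⟨v, h1, h2⟩ h3
      apply hij
      apply hinj
      rw [← h1, ← h2, h3, add_comm]
    · intro huw
      obtain ⟨x, hxf, hx, hxz⟩ := cover_aux k ((u : L) + w) _ _ (ne_add u w huw) (fixadd u w)
          (hζ i) (hζ j) (fun h1 => hij (hinj i j (h1.1.trans h1.2.symm)))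
      refine ⟨⟨(u : L) + x, fix_add u.2 hxf⟩, ?_, ?_⟩
      · rw [← add_assoc, CharTwo.add_self_eq_zero, zero_add, hx]
      · have : (u : L) + x + w = x + ((u : L) + w) := by ring
        rw [this, hxz]

/-- There are infinitely many positive integers `m` such that a Ramsey scheme in `m` colours exists
on some finite nonempty set. -/
theorem result : {m : ℕ | 1 ≤ m ∧ ∃ (V : Type) (_ : Finite V) (_ : Nonempty V)
    (R : Fin m → Set (V × V)), IsRamseyScheme m R}.Infinite := by
  have hmono : StrictMono MM := strictMono_nat_of_lt_succ MM_lt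
  refine Set.infinite_of_injective_forall_mem hmono.injective ?_
  intro k
  exact ⟨MM_pos k, U k, finite_U k, ⟨⟨0, zero_pow (by positivity)⟩⟩, scheme k⟩

end Pool.Agent.Results.MP_3a87f6_co.InfinitelyManyColors
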